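import Pool.Agent.NBT.StmtsF

/-! NBT, row PZB (helper41): the periodic simplex when all levels are points. -/

set_option autoImplicit false

open Matrix Filter Topology

namespace Pool.Agent.NBT.H41

open Pool.Agent.PFS Pool.Agent.PFJ Pool.Agent.NTS

/-- the quantity whose limit is bounded -/
theorem tend_bot {K : ℕ} (ℓ : Fin K → ℝ) (hℓ : ℓ ≠ 0) (Q : ℕ → ℝ) (q : ℝ)
    (hQ : Tendsto Q atTop (𝓝 q)) (φ : ℕ → ℕ) (hφ : StrictMono φ) (b : ℝ) :
    ∀ᶠ m in atTop, Q m - (φ m : ℝ) * ∑ i, ℓ i ^ 2 < b := by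
  have hS : 0 < ∑ i, ℓ i ^ 2 := by
    obtain ⟨i, hi⟩ := Function.ne_iff.mp hℓ
    apply Finset.sum_pos' (fun j _ => sq_nonneg _)
    exact ⟨i, Finset.mem_univ i, by simpa using (sq_pos_of_ne_zero hi)⟩
  have h1 : Tendsto (fun m => (φ m : ℝ) * ∑ i, ℓ i ^ 2) atTop atTop :=
    (tendsto_natCast_atTop_atTop.comp hφ.tendsto_atTop).atTop_mul_const hS
  have h2 : Tendsto (fun m => Q m - (φ m : ℝ) * ∑ i, ℓ i ^ 2) atTop atBot := by
    have h3 : Tendsto (fun m => Q m + -((φ m : ℝ) * ∑ i, ℓ i ^ 2)) atTop atBot :=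
      hQ.add_atBot (tendsto_neg_atTop_atBot.comp h1)
    exact h3
  exact h2.eventually (eventually_lt_atBot b)

/-- the elements which separate a given functional -/
theorem sep_elt (hTBF : TbfStmt) {n : ℕ} {C : Set (V n)} {Γ Γ₀ : Subgroup (GL (Fin n) ℝ)} {K : ℕ}
    {T : (Fin K → V n) → Prop} {c : Finset (Fin K) → ℕ} (hT : TB C Γ Γ₀ T c) {a : Fin K → ℝ}
    (ha : ∀ i j, i ≠ j → a i ≠ a j) {w : Fin K → V n} (hw : T w) (hZ : ZoE C Γ₀ T a w)
    (ℓ : Fin K → ℝ) (hℓ : ℓ ≠ 0) (hℓs : ∑ i, ℓ i = 0) :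
    ∃ γ ∈ Γ, ∃ χ : Fin K → ℝ, (∀ i, act γ (w i) = Real.exp (χ i) • w i) ∧
      ∑ i, ℓ i * χ i ≠ 0 := by
  classical
  have hCC : CC C Γ := hT.cc
  have hpes := hT.pes w hw
  have hwcl : ∀ i, w i ∈ closure C := fun i => hpes.1.cl i
  have hw0 : ∀ i, w i ≠ 0 := fun i =>
    (Pool.Agent.PFS.H60.lin n C hCC.toPCone (Fin K) w hpes.1).ne_zero i
  obtain ⟨φ, g, s, v, hφ, hg, hs, hTv, hlim, himg, -⟩ :=
    hZ (fun m i => Real.exp ((m : ℝ) * ℓ i)) (fun m i => Real.exp_pos _)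
  have hv0 : ∀ i, v i ≠ 0 := fun i =>
    (Pool.Agent.PFS.H60.lin n C hCC.toPCone (Fin K) v (hT.pes v hTv).1).ne_zero i
  have hlev : ∀ i, lev a i = {i} := by
    intro i
    ext j
    unfold lev
    rw [Finset.mem_filter, Finset.mem_singleton]
    constructor
    · rintro ⟨_, hj⟩
      by_contra hji
      exact ha j i hji hj
    · intro h
      exact ⟨Finset.mem_univ _, by rw [h]⟩
  obtain ⟨-, -, -, -, -, hmem, -, hline, -⟩ := hTBF n C Γ Γ₀ K T c hT w hw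
  have hgΓ : ∀ m, g m ∈ Γ := fun m => hT.sub (hg m)
  have hall : ∀ m i, ∃ b : ℝ, 0 < b ∧ act (g m) (w i) = b • w i := by
    intro m i
    have h1 : act (g m) (w i) ∈ BI C w {i} := by
      have h2 := himg m i
      rw [hlev i] at h2
      rw [← h2]
      exact mem_img.2 ⟨w i, (hmem i {i}).2 (Finset.mem_singleton_self i), rfl⟩
    obtain ⟨b, hb⟩ := hline i _ h1
    have hne : act (g m) (w i) ≠ 0 := by
      intro h
      apply hw0 i
      apply CC.act_injective (g m)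
      rw [h, CC.act_zero]
    refine ⟨b, ?_, hb⟩
    rcases lt_trichotomy b 0 with hc | hc | hc
    · exfalso
      apply hne
      apply hCC.salient _ (hCC.act_cl (hgΓ m) (hwcl i))
      rw [hb, ← neg_smul]
      exact hCC.cl_smul (hwcl i) (by linarith)
    · exfalso
      apply hne
      rw [hb, hc, zero_smul]
    · exact hc
  choose b hb0 hbw using hall
  -- the norms
  set Q : ℕ → ℝ := fun m => ∑ i, ℓ i *
    Real.log ‖s m • act (g m) (Real.exp (((φ m : ℕ) : ℝ) * ℓ i) • w i)‖ with hQdef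
  have hQ : Tendsto Q atTop (𝓝 (∑ i, ℓ i * Real.log ‖v i‖)) := by
    apply tendsto_finsetSum
    intro i _
    exact ((hlim i).norm.log (norm_ne_zero_iff.mpr (hv0 i))).const_mul (ℓ i)
  obtain ⟨N, hN⟩ := eventually_atTop.mp
    (tend_bot ℓ hℓ Q _ hQ φ hφ (∑ i, ℓ i * Real.log ‖w i‖))
  have hlt := hN N le_rfl
  refine ⟨g N, hgΓ N, fun i => Real.log (b N i),
    fun i => by rw [Real.exp_log (hb0 N i)]; exact hbw N i, ?_⟩
  have hn0 : ∀ i, 0 < ‖w i‖ := fun i => norm_pos_iff.2 (hw0 i)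
  have hlogm : ∀ i, Real.log ‖s N • act (g N) (Real.exp (((φ N : ℕ) : ℝ) * ℓ i) • w i)‖ =
      Real.log (s N) + (φ N : ℝ) * ℓ i + Real.log (b N i) + Real.log ‖w i‖ := by
    intro i
    rw [CC.act_smul, hbw N i, norm_smul, norm_smul, norm_smul, Real.norm_of_nonneg (hs N).le,
      Real.norm_of_nonneg (Real.exp_pos _).le, Real.norm_of_nonneg (hb0 N i).le,
      Real.log_mul (hs N).ne' (by have := hb0 N i; have := hn0 i; positivity),
      Real.log_mul (Real.exp_pos _).ne' (by have := hb0 N i; have := hn0 i; positivity),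
      Real.log_mul (hb0 N i).ne' (hn0 i).ne', Real.log_exp]
    ring
  have hQm : Q N = (φ N : ℝ) * ∑ i, ℓ i ^ 2 + ∑ i, ℓ i * Real.log (b N i) +
      ∑ i, ℓ i * Real.log ‖w i‖ := by
    rw [hQdef]
    simp only [hlogm]
    have : ∀ i, ℓ i * (Real.log (s N) + (φ N : ℝ) * ℓ i + Real.log (b N i) +
        Real.log ‖w i‖) = Real.log (s N) * ℓ i + (φ N : ℝ) * ℓ i ^ 2 +
        ℓ i * Real.log (b N i) + ℓ i * Real.log ‖w i‖ := fun i => by ring
    simp only [this]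
    rw [Finset.sum_add_distrib, Finset.sum_add_distrib, Finset.sum_add_distrib, ← Finset.mul_sum,
      ← Finset.mul_sum, hℓs, mul_zero, zero_add]
  rw [hQm] at hlt
  intro h
  rw [h] at hlt
  linarith

theorem pzb (hTBF : TbfStmt) : PzbStmt := by
  intro n C Γ Γ₀ k T c hT a ha w hw hZ
  have hCC : CC C Γ := hT.cc
  have hP : PCone C := hCC.toPCone
  have h3 : 3 ≤ k + 1 := hT.three
  have hpes : IsPES C Γ w := hT.pes w hw
  have hind : LinearIndependent ℝ w := Pool.Agent.PFS.H60.lin n C hP _ w hpes.1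
  have hF := (Pool.Agent.PFS.H32.frz n C hP _ w hind).mp hpes.1
  obtain ⟨-, -, -, -, -, -, hext, -⟩ := hTBF n C Γ Γ₀ (k + 1) T c hT w hw
  refine ⟨hind, hF.1, hF.2, ?_, ?_⟩
  · intro m v hvind hv1 hv2 hsub
    have hvP : PES C v := (Pool.Agent.PFS.H32.frz n C hP _ v hvind).mpr ⟨hv1, hv2⟩
    exact Pool.Agent.PFJ.H83.mxe n C hP (k + 1) (by omega) w hpes.1 hext (m + 1) v hvP hsub
  · obtain ⟨χ, hχ, hχl⟩ := Pool.Agent.PFS.H81.chi k
      {χ : Fin (k + 1) → ℝ | ∃ γ ∈ Γ, ∀ i, act γ (w i) = Real.exp (χ i) • w i} (by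
        intro ℓ hℓ hs
        obtain ⟨γ, hγ, χ, h4, h5⟩ := sep_elt hTBF hT ha hw hZ ℓ hℓ hs
        exact ⟨χ, ⟨γ, hγ, h4⟩, h5⟩)
    choose γ hγ hγχ using hχ
    exact Pool.Agent.PFS.H37.abeF n C Γ hCC k w hpes γ χ hγ hγχ hχl

end Pool.Agent.NBT.H41
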