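import Pool.Agent.NBT.StmtsF

/-! NBT, row LVF (helper41): the involution of the two-element levels. -/

set_option autoImplicit false

namespace Pool.Agent.NBT.H41

open Pool.Agent.PFS Pool.Agent.PFJ

theorem lvf : LvfStmt := by
  intro K a h3
  classical
  let τ : Fin K → Fin K := fun i => if h : ∃ j, j ≠ i ∧ a j = a i then h.choose else i
  have hpos : ∀ i, (∃ j, j ≠ i ∧ a j = a i) → τ i ≠ i ∧ a (τ i) = a i := by
    intro i h
    have e : τ i = h.choose := dif_pos h
    rw [e]
    exact h.choose_spec
  have hneg : ∀ i, ¬ (∃ j, j ≠ i ∧ a j = a i) → τ i = i := fun i h => dif_neg h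
  have huniq : ∀ i j, i ≠ j → a i = a j → j = τ i := by
    intro i j hij haij
    obtain ⟨h1, h2⟩ := hpos i ⟨j, hij.symm, haij.symm⟩
    rcases h3 (τ i) i j h2 haij with h | h | h
    · exact absurd h h1
    · exact absurd h hij
    · exact h.symm
  have ha : ∀ i, a (τ i) = a i := by
    intro i
    by_cases h : ∃ j, j ≠ i ∧ a j = a i
    · exact (hpos i h).2
    · rw [hneg i h]
  have hinv : ∀ i, τ (τ i) = i := by
    intro i
    by_cases h : τ i = i
    · rw [h, h]
    · exact (huniq (τ i) i h (ha i)).symm
  refine ⟨τ, hinv, ha, huniq, ?_, ?_⟩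
  · intro i
    ext j
    unfold lev
    rw [Finset.mem_filter, Finset.mem_insert, Finset.mem_singleton]
    constructor
    · rintro ⟨_, hj⟩
      by_cases hji : j = i
      · exact Or.inl hji
      · exact Or.inr (huniq i j (fun h => hji h.symm) hj.symm)
    · rintro (h | h)
      · exact ⟨Finset.mem_univ _, by rw [h]⟩
      · exact ⟨Finset.mem_univ _, by rw [h]; exact ha i⟩
  · intro i
    unfold lev
    rw [ha i]

end Pool.Agent.NBT.H41
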